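import Pool.Agent.Lib.MP_0e93e1_an.Ess.Fin

open Metric Set Filter Topology
open Pool.Agent.Lib.MP_0e93e1_an Pool.Agent.Lib.MP_0e93e1_an.Ess

/-- The Fredholm domain (the complement of the essential spectrum) and the index of the weighted
composition operator `f ↦ ψ · (f ∘ φ)` on the Hardy space, for every disc automorphism `φ` and
every bounded analytic weight `ψ`.  The Hardy space is any complex normed space `H` whose elements
`f` are realised, linearly, as functions `ι f` analytic on the disc, with squared norm the supremum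
of the integral means, all such functions being realised.  The filter `comap norm (𝓝[<] 1)` is
the filter of `|z| → 1` inside the disc. -/
theorem Pool.Agent.Results.MP_0e93e1_an.Fredholm.result
    (H : Type) [NormedAddCommGroup H] [NormedSpace ℂ H] (ι : H →ₗ[ℂ] (ℂ → ℂ))
    (hhol : ∀ f : H, DifferentiableOn ℂ (ι f) (ball 0 1))
    (hnorm : ∀ f : H, IsLUB (mean (ι f) '' Ioo 0 1) (‖f‖ ^ 2))
    (hsurj : ∀ g : ℂ → ℂ, DifferentiableOn ℂ g (ball 0 1) → BddAbove (mean g '' Ioo 0 1) →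
      ∃ f : H, ∀ z ∈ ball (0 : ℂ) 1, ι f z = g z)
    (l a : ℂ) (hl : ‖l‖ = 1) (ha : ‖a‖ < 1)
    (φ : ℂ → ℂ) (hφ : ∀ z, φ z = l * (a - z) / (1 - (starRingEnd ℂ) a * z))
    (ψ : ℂ → ℂ) (hψ : DifferentiableOn ℂ ψ (ball 0 1))
    (hψb : ∃ C : ℝ, ∀ z ∈ ball (0 : ℂ) 1, ‖ψ z‖ ≤ C) :
    ∃ T : H →L[ℂ] H,
      (∀ f : H, ∀ z ∈ ball (0 : ℂ) 1, ι (T f) z = ψ z * ι f (φ z)) ∧
      (∀ n : ℕ, 0 < n → (∀ z ∈ ball (0 : ℂ) 1, φ^[n] z = z) →
        (∀ m : ℕ, 0 < m → m < n → ∃ z ∈ ball (0 : ℂ) 1, φ^[m] z ≠ z) → ∀ μ : ℂ,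
          ((T - μ • 1).IsFredholm ↔ ∃ c : ℝ, 0 < c ∧ ∀ᶠ z in comap norm (𝓝[<] (1 : ℝ)),
            c ≤ ‖∏ k ∈ Finset.range n, ψ (φ^[k] z) - μ ^ n‖) ∧
          ((T - μ • 1).IsFredholm → (T - μ • 1).ker = ⊥ ∧
            n * Module.finrank ℂ (H ⧸ (T - μ • 1).range) = ∑ᶠ z ∈ ball (0 : ℂ) 1,
              analyticOrderNatAt (fun w => ∏ k ∈ Finset.range n, ψ (φ^[k] w) - μ ^ n) z)) ∧
      ((∀ n : ℕ, 0 < n → ∃ z ∈ ball (0 : ℂ) 1, φ^[n] z ≠ z) →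
        ∃ r R : ℝ,
          Tendsto (fun n : ℕ => (liminf (fun z : ℂ =>
            ‖∏ k ∈ Finset.range n, ψ (φ^[k] z)‖ / √‖deriv (φ^[n]) z‖)
              (comap norm (𝓝[<] (1 : ℝ)))) ^ (1 / (n : ℝ))) atTop (𝓝 r) ∧
          Tendsto (fun n : ℕ => (⨆ z : ball (0 : ℂ) 1,
            ‖∏ k ∈ Finset.range n, ψ (φ^[k] z)‖ / √‖deriv (φ^[n]) z‖) ^ (1 / (n : ℝ)))
            atTop (𝓝 R) ∧
          ∀ μ : ℂ, ((T - μ • 1).IsFredholm ↔ ‖μ‖ < r ∨ R < ‖μ‖) ∧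
            ((T - μ • 1).IsFredholm → (T - μ • 1).ker = ⊥ ∧
              Module.finrank ℂ (H ⧸ (T - μ • 1).range) =
                if ‖μ‖ < r then ∑ᶠ z ∈ ball (0 : ℂ) 1, analyticOrderNatAt ψ z else 0)) := by
  obtain rfl : φ = mob l a := funext hφ
  obtain ⟨C, hC⟩ := hψb
  obtain ⟨T, hT, -⟩ := exists_factor hl ha hψ hC
  obtain ⟨E, hE⟩ := exists_equiv_model ι hhol hnorm hsurj
  have h1 : ∀ μ : ℂ, E.symm.conjContinuousAlgEquiv T - μ • 1 =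
      E.symm.conjContinuousAlgEquiv (T - μ • 1) := fun μ => by rw [map_sub, map_smul, map_one]
  have h2 : ∀ μ : ℂ, (E.symm.conjContinuousAlgEquiv (T - μ • 1)).IsFredholm →
      IsUnit (rep (T - μ • 1)) := fun μ h => by
    obtain ⟨B, h3, h4⟩ := exists_reg E.symm h
    exact isUnit_rep_of_reg h3 h4
  refine ⟨E.symm.conjContinuousAlgEquiv T, fun f z hz => ?_, fun n hn hid hmin μ => ?_,
    fun hinf => ?_⟩
  · rw [← hE _ z hz, ← hE f _ (mob_mapsTo hl ha hz), ← hT _ z hz]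
    simp
  · obtain ⟨h3, h4⟩ := ess_finite hl ha hT hn hid hmin hψ μ
    rw [h1]
    refine ⟨⟨fun h => h3 (h2 μ h), fun ⟨c, hc, hb⟩ => ?_⟩, fun h => ?_⟩
    · obtain ⟨j, hj, -⟩ := h4 c hc hb
      exact (hj.conj E.symm).isFredholm
    · obtain ⟨c, hc, hb⟩ := h3 (h2 μ h)
      obtain ⟨j, hj, hn⟩ := h4 c hc hb
      exact ⟨(hj.conj E.symm).ker, by rw [(hj.conj E.symm).finrank]; exact hn⟩
  · obtain ⟨r, R, h3, h4, h5⟩ := ess_infinite hl ha hψ hC hT hinf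
    refine ⟨r, R, h3, h4, fun μ => ?_⟩
    obtain ⟨h6, h7, h8⟩ := h5 μ
    have h9 : (E.symm.conjContinuousAlgEquiv (T - μ • 1)).IsFredholm → ‖μ‖ < r ∨ R < ‖μ‖ := by
      intro h
      by_contra h'
      rw [not_or, not_lt, not_lt] at h'
      exact h8 h'.1 h'.2 (h2 μ h)
    rw [h1]
    refine ⟨⟨h9, ?_⟩, fun h => ?_⟩
    · rintro (h | h)
      · exact ((h6 h).conj E.symm).isFredholm
      · exact ((h7 h).conj E.symm).isFredholm
    · split_ifs with hr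
      · exact ⟨((h6 hr).conj E.symm).ker, ((h6 hr).conj E.symm).finrank⟩
      · have hR := (h9 h).resolve_left hr
        exact ⟨((h7 hR).conj E.symm).ker, ((h7 hR).conj E.symm).finrank⟩
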