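import Pool.Agent.Lib.MP_0e93e1_an.Model

open Metric Set Filter Topology
open Pool.Agent.Lib.MP_0e93e1_an

/-- The spectrum of the weighted composition operator `f ↦ ψ · (f ∘ φ)` on the Hardy space, for
every disc automorphism `φ` and every bounded analytic weight `ψ`.  The Hardy space is any complex
normed space `H` whose elements `f` are realised, linearly, as functions `ι f` analytic on the
disc, with squared norm the supremum of the integral means, all such functions being realised. -/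
theorem Pool.Agent.Results.MP_0e93e1_an.Spectrum.result
    (H : Type) [NormedAddCommGroup H] [NormedSpace ℂ H] (ι : H →ₗ[ℂ] (ℂ → ℂ))
    (hhol : ∀ f : H, DifferentiableOn ℂ (ι f) (ball 0 1))
    (hnorm : ∀ f : H, IsLUB (mean (ι f) '' Ioo 0 1) (‖f‖ ^ 2))
    (hsurj : ∀ g : ℂ → ℂ, DifferentiableOn ℂ g (ball 0 1) → BddAbove (mean g '' Ioo 0 1) →
      ∃ f : H, ∀ z ∈ ball (0 : ℂ) 1, ι f z = g z)
    (l a : ℂ) (hl : ‖l‖ = 1) (ha : ‖a‖ < 1)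
    (φ : ℂ → ℂ) (hφ : ∀ z, φ z = l * (a - z) / (1 - (starRingEnd ℂ) a * z))
    (ψ : ℂ → ℂ) (hψ : DifferentiableOn ℂ ψ (ball 0 1))
    (hψb : ∃ C : ℝ, ∀ z ∈ ball (0 : ℂ) 1, ‖ψ z‖ ≤ C) :
    ∃ T : H →L[ℂ] H,
      (∀ f : H, ∀ z ∈ ball (0 : ℂ) 1, ι (T f) z = ψ z * ι f (φ z)) ∧
      (∀ n : ℕ, 0 < n → (∀ z ∈ ball (0 : ℂ) 1, φ^[n] z = z) →
        (∀ m : ℕ, 0 < m → m < n → ∃ z ∈ ball (0 : ℂ) 1, φ^[m] z ≠ z) →
        spectrum ℂ T =
          {μ : ℂ | μ ^ n ∈ closure ((fun z => ∏ k ∈ Finset.range n, ψ (φ^[k] z)) '' ball 0 1)}) ∧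
      ((∀ n : ℕ, 0 < n → ∃ z ∈ ball (0 : ℂ) 1, φ^[n] z ≠ z) →
        ∃ r R : ℝ,
          Tendsto (fun n : ℕ => (⨅ z : ball (0 : ℂ) 1,
            ‖∏ k ∈ Finset.range n, ψ (φ^[k] z)‖ / √‖deriv (φ^[n]) z‖) ^ (1 / (n : ℝ)))
            atTop (𝓝 r) ∧
          Tendsto (fun n : ℕ => (⨆ z : ball (0 : ℂ) 1,
            ‖∏ k ∈ Finset.range n, ψ (φ^[k] z)‖ / √‖deriv (φ^[n]) z‖) ^ (1 / (n : ℝ)))
            atTop (𝓝 R) ∧
          spectrum ℂ T = {μ : ℂ | r ≤ ‖μ‖ ∧ ‖μ‖ ≤ R}) := by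
  obtain rfl : φ = mob l a := funext hφ
  obtain ⟨C, hC⟩ := hψb
  obtain ⟨T, hT, -⟩ := exists_factor hl ha hψ hC
  obtain ⟨E, hE⟩ := exists_equiv_model ι hhol hnorm hsurj
  obtain ⟨T', h1, h2⟩ := transfer_model ι hE (mob_mapsTo hl ha) hT
  refine ⟨T', h1, fun n hn hid hmin => ?_, fun hinf => ?_⟩
  · rw [h2]
    exact spectrum_finite_order hl ha hψ hT hn hid hmin
  · rw [h2]
    exact spectrum_infinite_order hl ha hψ hC hT hinf
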